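import Pool.Agent.Helper1.FN.BERGb
import Pool.Agent.Helper25.FN.Spec

set_option autoImplicit false

/-!
# Weighted Bergman spaces (BERG)
-/

namespace Pool.Agent.Helper1.FN.BERG

open MeasureTheory Metric Set Filter Topology
open Pool.Agent.Helper25.FN

variable {n : ℕ} {ρ : (Fin n → ℂ) → ℝ}

/-- the entire function -/
noncomputable def iota (hρ : ∀ z, 0 < ρ z) : Hs ρ →ₗ[ℂ] ((Fin n → ℂ) → ℂ) where
  toFun x := x.2.choose
  map_add' x y := rep_unique hρ (x + y).2.choose_spec (rep_add x.2.choose_spec y.2.choose_spec)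
  map_smul' c x := rep_unique hρ (c • x).2.choose_spec (rep_smul c x.2.choose_spec)

lemma iota_rep (hρ : ∀ z, 0 < ρ z) (x : Hs ρ) :
    Rep ρ (x : Lp ℂ 2 (volume : Measure (Fin n → ℂ))) (iota hρ x) := x.2.choose_spec

lemma nm_cont : Continuous (nm : V n → ℝ) := by
  unfold nm
  fun_prop

lemma norm_le_nm (z : V n) : ‖z‖ ≤ nm z := by
  unfold nm
  rw [pi_norm_le_iff_of_nonneg (Real.sqrt_nonneg _)]
  intro i
  apply Real.le_sqrt_of_sq_le
  exact Finset.single_le_sum (f := fun j => ‖z j‖ ^ 2) (fun j _ => by positivity)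
    (Finset.mem_univ i)

lemma isCompact_S (R : ℝ) : IsCompact {z : V n | nm z ≤ R} := by
  refine Metric.isCompact_of_isClosed_isBounded (isClosed_le nm_cont continuous_const) ?_
  refine (isBounded_closedBall (x := (0 : V n)) (r := R)).subset fun z hz => ?_
  rw [mem_closedBall_zero_iff]
  exact (norm_le_nm z).trans hz

lemma exists_K (hρc : Continuous ρ) (hρ : ∀ z, 0 < ρ z) (R : ℝ) :
    ∃ (H₂ : Type) (_ : NormedAddCommGroup H₂) (_ : InnerProductSpace ℂ H₂)
        (_ : CompleteSpace H₂) (K : Hs ρ →L[ℂ] H₂), IsCompactOperator K ∧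
          ∀ x : Hs ρ, ‖K x‖ ^ 2 = ∫ z in {z : V n | nm z ≤ R}, ‖iota hρ x z‖ ^ 2 := by
  set S : Set (V n) := {z : V n | nm z ≤ R} with hS
  have hSc : IsCompact S := isCompact_S R
  haveI : CompactSpace S := isCompact_iff_compactSpace.1 hSc
  have hSR : ∀ z : S, (z : V n) ∈ closedBall (0 : V n) R := by
    intro z
    rw [mem_closedBall_zero_iff]
    exact (norm_le_nm _).trans z.2
  obtain ⟨C, hC, hev⟩ := ev hρc hρ R
  obtain ⟨C', hC', hevd⟩ := evd hρc hρ R
  let T₀ : Hs ρ →ₗ[ℂ] BoundedContinuousFunction S ℂ :=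
    { toFun := fun x => BoundedContinuousFunction.mkOfCompact
        ⟨fun z : S => iota hρ x z, (iota_rep hρ x).1.continuous.comp continuous_subtype_val⟩
      map_add' := fun x y => by
        ext z
        change iota hρ (x + y) z = iota hρ x z + iota hρ y z
        rw [map_add]
        rfl
      map_smul' := fun c x => by
        ext z
        change iota hρ (c • x) z = c * iota hρ x z
        rw [map_smul]
        rfl }
  have hT₀ : ∀ x (z : S), T₀ x z = iota hρ x z := fun x z => rfl
  have hb : ∀ x, ‖T₀ x‖ ≤ C * ‖x‖ := by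
    intro x
    rw [BoundedContinuousFunction.norm_le (by positivity)]
    intro z
    rw [hT₀]
    exact hev x _ (iota_rep hρ x) z (hSR z)
  let T : Hs ρ →L[ℂ] BoundedContinuousFunction S ℂ := T₀.mkContinuous C hb
  have hT : ∀ x (z : S), T x z = iota hρ x z := fun x z => rfl
  have hTc : IsCompactOperator T := by
    refine (isCompactOperator_iff_isCompact_closure_image_closedBall
      (T : Hs ρ →ₗ[ℂ] BoundedContinuousFunction S ℂ) zero_lt_one).2 ?_
    refine BoundedContinuousFunction.arzela_ascoli (closedBall (0 : ℂ) C)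
      (isCompact_closedBall _ _) _ ?_ ?_
    · rintro f z ⟨x, hx, rfl⟩
      rw [mem_closedBall_zero_iff] at hx ⊢
      change ‖iota hρ x z‖ ≤ C
      refine (hev x _ (iota_rep hρ x) z (hSR z)).trans ?_
      exact mul_le_of_le_one_right hC hx
    · refine Metric.equicontinuous_of_continuity_modulus (fun t => C' * t) ?_ _ ?_
      · have : Tendsto (fun t : ℝ => C' * t) (𝓝 0) (𝓝 (C' * 0)) :=
          (continuous_const.mul continuous_id).tendsto 0
        rwa [mul_zero] at this
      · rintro z y ⟨f, x, hx, rfl⟩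
        rw [mem_closedBall_zero_iff] at hx
        change dist (iota hρ x z) (iota hρ x y) ≤ C' * dist z y
        rw [dist_eq_norm, Subtype.dist_eq, dist_eq_norm]
        refine (convex_closedBall (0 : V n) R).norm_image_sub_le_of_norm_fderiv_le (𝕜 := ℂ)
          (fun w _ => (iota_rep hρ x).1 w) (fun w hw => ?_) (hSR y) (hSR z)
        refine (hevd x _ (iota_rep hρ x) w hw).trans ?_
        exact mul_le_of_le_one_right hC' hx
  let μ : Measure S := (volume : Measure (V n)).comap Subtype.val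
  haveI : IsFiniteMeasure μ := ⟨by
    change (volume : Measure (V n)).comap Subtype.val univ < ⊤
    rw [comap_subtype_coe_apply hSc.measurableSet, Subtype.coe_image_univ]
    exact hSc.measure_lt_top⟩
  let L := BoundedContinuousFunction.toLp (E := ℂ) 2 μ ℂ
  refine ⟨Lp ℂ 2 μ, inferInstance, inferInstance, inferInstance, L.comp T, hTc.clm_comp L, ?_⟩
  intro x
  rw [nsq]
  have h1 : ∀ᵐ z ∂μ, (L.comp T x : S → ℂ) z = T x z :=
    BoundedContinuousFunction.coeFn_toLp 2 μ ℂ (T x)
  rw [integral_congr_ae (g := fun z : S => ‖iota hρ x z‖ ^ 2)]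
  · exact integral_subtype_comap hSc.measurableSet (fun z => ‖iota hρ x z‖ ^ 2)
  · filter_upwards [h1] with z h2
    rw [h2, hT]

theorem main : S_BERG := by
  intro n ρ hρc hρ
  have : CompleteSpace (Hs ρ) := (isClosed_Hs hρc hρ).completeSpace_coe
  refine ⟨Hs ρ, inferInstance, inferInstance, inferInstance, iota hρ, ?_, ?_, ?_, ?_⟩
  · intro x y hxy
    apply Subtype.ext
    have h1 := iota_rep hρ x
    have h2 := iota_rep hρ y
    rw [← hxy] at h2
    apply Lp.ext
    filter_upwards [h1.2, h2.2] with z h3 h4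
    rw [h3, h4]
  · intro f
    constructor
    · rintro ⟨x, rfl⟩
      exact ⟨(iota_rep hρ x).1, (rep_int hρ (iota_rep hρ x)).1⟩
    · rintro ⟨hf, hi⟩
      obtain ⟨u, hu⟩ := rep_mk hρc hρ hf hi
      refine ⟨⟨u, f, hu⟩, ?_⟩
      exact rep_unique hρ (iota_rep hρ _) hu
  · intro x y
    change inner ℂ (x : Lp ℂ 2 (volume : Measure (Fin n → ℂ))) (y : Lp ℂ 2 _) = _
    rw [L2.inner_def]
    refine integral_congr_ae ?_
    filter_upwards [(iota_rep hρ x).2, (iota_rep hρ y).2] with z h1 h2
    rw [h1, h2, RCLike.inner_apply, map_mul, Complex.conj_ofReal]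
    have h3 : ((√(ρ z) : ℝ) : ℂ) * ((√(ρ z) : ℝ) : ℂ) = (ρ z : ℂ) := by
      rw [← Complex.ofReal_mul, Real.mul_self_sqrt (hρ z).le]
    linear_combination (iota hρ y z * starRingEnd ℂ (iota hρ x z)) * h3
  · exact exists_K hρc hρ

end Pool.Agent.Helper1.FN.BERG
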