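import Mathlib

set_option autoImplicit false

/-!
# Mean values and Cauchy estimates of entire functions of several variables
-/

namespace Pool.Agent.Helper1.FN

open MeasureTheory Metric Set Filter Topology
open scoped Real

variable {n : ℕ}

lemma mp_smul (c : ℂ) (hc : ‖c‖ = 1) :
    MeasurePreserving (fun w : Fin n → ℂ => c • w) volume volume := by
  have h1 : MeasurePreserving (fun x : ℂ => c * x) volume volume := by
    have h2 := (rotation ⟨c, mem_sphere_zero_iff_norm.2 hc⟩).measurePreserving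
    exact h2
  exact volume_preserving_pi (fun _ : Fin n => h1)

lemma ball_rot (f : (Fin n → ℂ) → ℂ) (z : Fin n → ℂ) (c : ℂ) (hc : ‖c‖ = 1) :
    ∫ w in ball (0 : Fin n → ℂ) 1, f (z + c • w) = ∫ w in ball (0 : Fin n → ℂ) 1, f (z + w) := by
  have hc0 : c ≠ 0 := by
    rintro rfl
    simp at hc
  have h1 := (mp_smul (n := n) c hc).setIntegral_preimage_emb
    (measurableEmbedding_const_smul₀ hc0) (fun w => f (z + w)) (ball (0 : Fin n → ℂ) 1)
  have h2 : (fun w : Fin n → ℂ => c • w) ⁻¹' ball (0 : Fin n → ℂ) 1 = ball 0 1 := by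
    ext w
    simp [norm_smul, hc]
  rw [h2] at h1
  exact h1

/-- mean value over the unit polydisc -/
lemma mean_value {f : (Fin n → ℂ) → ℂ} (hf : Differentiable ℂ f) (z : Fin n → ℂ) :
    ∫ w in ball (0 : Fin n → ℂ) 1, f (z + w) =
      ((volume (ball (0 : Fin n → ℂ) 1)).toReal : ℂ) * f z := by
  have hcont : Continuous fun p : ℝ × (Fin n → ℂ) =>
      f (z + Complex.exp (p.1 * Complex.I) • p.2) := by
    refine hf.continuous.comp ?_
    fun_prop
  have hint : Integrable (fun p : ℝ × (Fin n → ℂ) =>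
      f (z + Complex.exp (p.1 * Complex.I) • p.2))
      ((volume.restrict (Ioc (0 : ℝ) (2 * π))).prod (volume.restrict (ball (0 : Fin n → ℂ) 1))) := by
    rw [Measure.prod_restrict]
    have h1 : IntegrableOn (fun p : ℝ × (Fin n → ℂ) =>
        f (z + Complex.exp (p.1 * Complex.I) • p.2))
        (Icc (0 : ℝ) (2 * π) ×ˢ closedBall (0 : Fin n → ℂ) 1) (volume.prod volume) :=
      hcont.continuousOn.integrableOn_compact (isCompact_Icc.prod (isCompact_closedBall 0 1))
    exact h1.mono_set (Set.prod_mono Ioc_subset_Icc_self ball_subset_closedBall)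
  have hswap := integral_integral_swap
    (f := fun (θ : ℝ) (w : Fin n → ℂ) => f (z + Complex.exp (θ * Complex.I) • w)) hint
  have h1 : ∀ θ : ℝ, ∫ w in ball (0 : Fin n → ℂ) 1, f (z + Complex.exp (θ * Complex.I) • w) =
      ∫ w in ball (0 : Fin n → ℂ) 1, f (z + w) := fun θ =>
    ball_rot f z _ (Complex.norm_exp_ofReal_mul_I θ)
  have h2 : ∀ w : Fin n → ℂ, ∫ θ in Ioc (0 : ℝ) (2 * π), f (z + Complex.exp (θ * Complex.I) • w) =
      (2 * π : ℝ) * f z := by
    intro w
    have hφ : Differentiable ℂ fun t : ℂ => f (z + t • w) := by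
      refine hf.comp ?_
      fun_prop
    have h3 : Real.circleAverage (fun t : ℂ => f (z + t • w)) 0 1 = f z := by
      have h4 := (hφ.diffContOnCl (s := ball (0 : ℂ) |1|)).circleAverage
      simpa using h4
    rw [Real.circleAverage_def] at h3
    rw [← intervalIntegral.integral_of_le (by positivity)]
    have h4 : ∀ θ : ℝ, circleMap 0 1 θ = Complex.exp (θ * Complex.I) := by
      intro θ
      simp [circleMap]
    simp only [h4] at h3
    rw [← h3]
    rw [Complex.real_smul, ← mul_assoc, ← Complex.ofReal_mul, mul_inv_cancel₀ (by positivity),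
      Complex.ofReal_one, one_mul]
  simp only [h1, h2] at hswap
  rw [integral_const, integral_const] at hswap
  simp only [measureReal_def, Measure.restrict_apply_univ, Real.volume_Ioc, sub_zero] at hswap
  rw [ENNReal.toReal_ofReal (by positivity), Complex.real_smul, Complex.real_smul] at hswap
  have hpi : ((2 * π : ℝ) : ℂ) ≠ 0 := by
    exact_mod_cast (by positivity : (2 * π : ℝ) ≠ 0)
  apply mul_left_cancel₀ hpi
  rw [hswap]
  ring

/-- the sub-mean value estimate for the square -/
lemma sq_le {f : (Fin n → ℂ) → ℂ} (hf : Differentiable ℂ f) (z : Fin n → ℂ) :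
    (volume (ball (0 : Fin n → ℂ) 1)).toReal * ‖f z‖ ^ 2 ≤ ∫ y in ball z 1, ‖f y‖ ^ 2 := by
  have h1 := mean_value (f := fun y => f y ^ 2) (hf.pow 2) z
  have h2 : ‖((volume (ball (0 : Fin n → ℂ) 1)).toReal : ℂ) * f z ^ 2‖ =
      (volume (ball (0 : Fin n → ℂ) 1)).toReal * ‖f z‖ ^ 2 := by
    rw [norm_mul, norm_pow, Complex.norm_real, Real.norm_of_nonneg ENNReal.toReal_nonneg]
  rw [← h2, ← h1]
  refine (norm_integral_le_integral_norm _).trans (le_of_eq ?_)
  have h3 := (measurePreserving_add_left (volume : Measure (Fin n → ℂ)) z).setIntegral_preimage_emb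
    (measurableEmbedding_addLeft z) (fun y => ‖f y‖ ^ 2) (ball z 1)
  rw [← h3]
  have h4 : (fun x : Fin n → ℂ => z + x) ⁻¹' ball z 1 = ball 0 1 := by
    ext w
    simp
  rw [h4]
  simp

/-- Cauchy estimate of the derivative -/
lemma norm_fderiv_le {f : (Fin n → ℂ) → ℂ} (hf : Differentiable ℂ f) (z : Fin n → ℂ) {M : ℝ}
    (hM : ∀ y ∈ closedBall z 1, ‖f y‖ ≤ M) : ‖fderiv ℂ f z‖ ≤ M := by
  have hM0 : 0 ≤ M := (norm_nonneg _).trans (hM z (mem_closedBall_self zero_le_one))
  refine ContinuousLinearMap.opNorm_le_bound _ hM0 fun w => ?_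
  rcases eq_or_ne w 0 with rfl | hw
  · simp
  have hw0 : ‖w‖ ≠ 0 := norm_ne_zero_iff.2 hw
  have hφ : Differentiable ℂ fun t : ℂ => f (z + t • w) := by
    refine hf.comp ?_
    fun_prop
  have h1 : deriv (fun t : ℂ => f (z + t • w)) 0 = fderiv ℂ f z w := by
    have h2 : HasDerivAt (fun t : ℂ => z + t • w) w 0 := by
      simpa using ((hasDerivAt_id (0 : ℂ)).smul_const w).const_add z
    have h3 : HasFDerivAt f (fderiv ℂ f z) ((fun t : ℂ => z + t • w) 0) := by
      simpa using (hf z).hasFDerivAt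
    exact (h3.comp_hasDerivAt 0 h2).deriv
  rw [← h1]
  have h4 := Complex.norm_deriv_le_of_forall_mem_sphere_norm_le (c := 0) (R := ‖w‖⁻¹) (C := M)
    (f := fun t : ℂ => f (z + t • w)) (by positivity) hφ.diffContOnCl (by
      intro t ht
      apply hM
      rw [mem_sphere_zero_iff_norm] at ht
      rw [mem_closedBall, dist_eq_norm, add_sub_cancel_left, norm_smul, ht,
        inv_mul_cancel₀ hw0])
  rwa [div_inv_eq_mul] at h4

end Pool.Agent.Helper1.FN
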