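import Pool.Agent.Helper1.FN.BERGa

set_option autoImplicit false

/-!
# Weighted Bergman spaces
-/

namespace Pool.Agent.Helper1.FN

open MeasureTheory Metric Set Filter Topology
open scoped Real

variable {n : ℕ}

lemma nsq {α : Type} [MeasurableSpace α] {μ : Measure α} (u : Lp ℂ 2 μ) :
    ‖u‖ ^ 2 = ∫ z, ‖u z‖ ^ 2 ∂μ := by
  have h := inner_self_eq_norm_sq_to_K (𝕜 := ℂ) u
  rw [L2.inner_def] at h
  simp only [inner_self_eq_norm_sq_to_K] at h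
  have h2 : ∫ a, ((‖u a‖ : ℂ)) ^ 2 ∂μ = ((∫ z, ‖u z‖ ^ 2 ∂μ : ℝ) : ℂ) := by
    refine Eq.trans ?_ (integral_ofReal (𝕜 := ℂ) (f := fun z => ‖u z‖ ^ 2))
    refine integral_congr_ae (Eventually.of_forall fun a => ?_)
    change ((‖u a‖ : ℂ)) ^ 2 = ((‖u a‖ ^ 2 : ℝ) : ℂ)
    rw [Complex.ofReal_pow]
  have h3 : ((‖u‖ ^ 2 : ℝ) : ℂ) = ((∫ z, ‖u z‖ ^ 2 ∂μ : ℝ) : ℂ) := by
    rw [← h2, Complex.ofReal_pow]
    exact h.symm
  exact_mod_cast h3

/-- `u` is represented by `f √ρ`, `f` entire -/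
def Rep (ρ : (Fin n → ℂ) → ℝ) (u : Lp ℂ 2 (volume : Measure (Fin n → ℂ)))
    (f : (Fin n → ℂ) → ℂ) : Prop :=
  Differentiable ℂ f ∧ (u : (Fin n → ℂ) → ℂ) =ᵐ[volume] fun z => f z * (√(ρ z) : ℂ)

variable {ρ : (Fin n → ℂ) → ℝ}

lemma rep_unique (hρ : ∀ z, 0 < ρ z) {u : Lp ℂ 2 (volume : Measure (Fin n → ℂ))}
    {f g : (Fin n → ℂ) → ℂ} (hf : Rep ρ u f) (hg : Rep ρ u g) : f = g := by
  have h1 : f =ᵐ[volume] g := by
    filter_upwards [hf.2, hg.2] with z h1 h2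
    rw [h1] at h2
    have h3 : ((√(ρ z) : ℝ) : ℂ) ≠ 0 := by
      exact_mod_cast (Real.sqrt_pos.2 (hρ z)).ne'
    exact mul_right_cancel₀ h3 h2
  exact (Continuous.ae_eq_iff_eq volume hf.1.continuous hg.1.continuous).1 h1

lemma rep_add {u v : Lp ℂ 2 (volume : Measure (Fin n → ℂ))} {f g : (Fin n → ℂ) → ℂ}
    (hf : Rep ρ u f) (hg : Rep ρ v g) : Rep ρ (u + v) (f + g) := by
  refine ⟨hf.1.add hg.1, ?_⟩
  filter_upwards [hf.2, hg.2, Lp.coeFn_add u v] with z h1 h2 h3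
  rw [h3, Pi.add_apply, h1, h2, Pi.add_apply]
  ring

lemma rep_smul {u : Lp ℂ 2 (volume : Measure (Fin n → ℂ))} {f : (Fin n → ℂ) → ℂ} (c : ℂ)
    (hf : Rep ρ u f) : Rep ρ (c • u) (c • f) := by
  refine ⟨hf.1.const_smul c, ?_⟩
  filter_upwards [hf.2, Lp.coeFn_smul c u] with z h1 h3
  rw [h3, Pi.smul_apply, h1, Pi.smul_apply, smul_eq_mul, smul_eq_mul]
  ring

lemma rep_sub {u v : Lp ℂ 2 (volume : Measure (Fin n → ℂ))} {f g : (Fin n → ℂ) → ℂ}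
    (hf : Rep ρ u f) (hg : Rep ρ v g) : Rep ρ (u - v) (f - g) := by
  refine ⟨hf.1.sub hg.1, ?_⟩
  filter_upwards [hf.2, hg.2, Lp.coeFn_sub u v] with z h1 h2 h3
  rw [h3, Pi.sub_apply, h1, h2, Pi.sub_apply]
  ring

lemma sq_eq (hρ : ∀ z, 0 < ρ z) (f : (Fin n → ℂ) → ℂ) (z : Fin n → ℂ) :
    ‖f z * (√(ρ z) : ℂ)‖ ^ 2 = ‖f z‖ ^ 2 * ρ z := by
  rw [norm_mul, mul_pow, Complex.norm_real, Real.norm_of_nonneg (Real.sqrt_nonneg _),
    Real.sq_sqrt (hρ z).le]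

lemma rep_int (hρ : ∀ z, 0 < ρ z) {u : Lp ℂ 2 (volume : Measure (Fin n → ℂ))}
    {f : (Fin n → ℂ) → ℂ} (hf : Rep ρ u f) :
    Integrable (fun z => ‖f z‖ ^ 2 * ρ z) ∧ ∫ z, ‖f z‖ ^ 2 * ρ z = ‖u‖ ^ 2 := by
  have h1 : (fun z => ‖u z‖ ^ 2) =ᵐ[volume] fun z => ‖f z‖ ^ 2 * ρ z := by
    filter_upwards [hf.2] with z h1
    rw [h1, sq_eq hρ]
  have h2 : Integrable (fun z => ‖u z‖ ^ 2) :=
    (memLp_two_iff_integrable_sq_norm (Lp.aestronglyMeasurable u)).1 (Lp.memLp u)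
  exact ⟨h2.congr h1, by rw [nsq, integral_congr_ae h1]⟩

lemma rep_mk (hρc : Continuous ρ) (hρ : ∀ z, 0 < ρ z) {f : (Fin n → ℂ) → ℂ}
    (hf : Differentiable ℂ f) (hi : Integrable (fun z => ‖f z‖ ^ 2 * ρ z)) :
    ∃ u : Lp ℂ 2 (volume : Measure (Fin n → ℂ)), Rep ρ u f := by
  have hc : Continuous fun z => f z * (√(ρ z) : ℂ) := by
    refine hf.continuous.mul ?_
    exact Complex.continuous_ofReal.comp (Real.continuous_sqrt.comp hρc)
  have h1 : MemLp (fun z => f z * (√(ρ z) : ℂ)) 2 volume := by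
    rw [memLp_two_iff_integrable_sq_norm hc.aestronglyMeasurable]
    refine hi.congr (Eventually.of_forall fun z => ?_)
    exact (sq_eq hρ f z).symm
  exact ⟨h1.toLp, hf, h1.coeFn_toLp⟩

/-- evaluation is bounded -/
lemma ev (hρc : Continuous ρ) (hρ : ∀ z, 0 < ρ z) (R : ℝ) :
    ∃ C : ℝ, 0 ≤ C ∧ ∀ (u : Lp ℂ 2 (volume : Measure (Fin n → ℂ))) (f : (Fin n → ℂ) → ℂ),
      Rep ρ u f → ∀ z ∈ closedBall (0 : Fin n → ℂ) R, ‖f z‖ ≤ C * ‖u‖ := by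
  rcases lt_or_ge R 0 with hR | hR
  · refine ⟨0, le_rfl, fun u f _ z hz => ?_⟩
    rw [closedBall_eq_empty.2 hR] at hz
    exact absurd hz (notMem_empty z)
  have hne : (closedBall (0 : Fin n → ℂ) (R + 1)).Nonempty :=
    ⟨0, mem_closedBall_self (by linarith)⟩
  obtain ⟨z₀, -, hmin⟩ := (isCompact_closedBall (0 : Fin n → ℂ) (R + 1)).exists_isMinOn hne
    hρc.continuousOn
  set m := ρ z₀ with hm
  have hm0 : 0 < m := hρ z₀
  set v := (volume (ball (0 : Fin n → ℂ) 1)).toReal with hv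
  have hv0 : 0 < v := ENNReal.toReal_pos (measure_ball_pos _ _ one_pos).ne' measure_ball_lt_top.ne
  refine ⟨√(1 / (v * m)), Real.sqrt_nonneg _, fun u f hf z hz => ?_⟩
  obtain ⟨hi, hn⟩ := rep_int hρ hf
  have hsub : ball z 1 ⊆ closedBall (0 : Fin n → ℂ) (R + 1) := by
    intro y hy
    rw [mem_closedBall] at hz ⊢
    rw [mem_ball] at hy
    have := dist_triangle y z 0
    linarith
  have hcf : Continuous fun y => ‖f y‖ ^ 2 := (hf.1.continuous.norm).pow 2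
  have h1 : ∫ y in ball z 1, ‖f y‖ ^ 2 ≤ ∫ y in closedBall (0 : Fin n → ℂ) (R + 1), ‖f y‖ ^ 2 := by
    refine setIntegral_mono_set (hcf.continuousOn.integrableOn_compact (isCompact_closedBall _ _))
      (Eventually.of_forall fun y => by positivity) hsub.eventuallyLE
  have h2 : ∫ y in closedBall (0 : Fin n → ℂ) (R + 1), ‖f y‖ ^ 2 ≤
      ∫ y in closedBall (0 : Fin n → ℂ) (R + 1), m⁻¹ * (‖f y‖ ^ 2 * ρ y) := by
    refine setIntegral_mono_on (hcf.continuousOn.integrableOn_compact (isCompact_closedBall _ _))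
      ((hi.const_mul m⁻¹).integrableOn) measurableSet_closedBall fun y hy => ?_
    have h3 : m ≤ ρ y := hmin hy
    have h4 : ‖f y‖ ^ 2 * m ≤ ‖f y‖ ^ 2 * ρ y := mul_le_mul_of_nonneg_left h3 (by positivity)
    rw [inv_mul_eq_div, le_div_iff₀ hm0]
    exact h4
  have h3 : ∫ y in closedBall (0 : Fin n → ℂ) (R + 1), m⁻¹ * (‖f y‖ ^ 2 * ρ y) ≤
      ∫ y, m⁻¹ * (‖f y‖ ^ 2 * ρ y) := by
    refine setIntegral_le_integral (hi.const_mul m⁻¹) (Eventually.of_forall fun y => ?_)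
    have := (hρ y).le
    positivity
  have e3 : ∫ y, m⁻¹ * (‖f y‖ ^ 2 * ρ y) = m⁻¹ * ‖u‖ ^ 2 := by rw [integral_const_mul, hn]
  rw [e3] at h3
  have h4 := sq_le hf.1 z
  have h5 : v * ‖f z‖ ^ 2 ≤ m⁻¹ * ‖u‖ ^ 2 := (h4.trans h1).trans (h2.trans h3)
  rw [← Real.sqrt_sq (norm_nonneg (f z)), ← Real.sqrt_sq (norm_nonneg u),
    ← Real.sqrt_mul (by positivity)]
  apply Real.sqrt_le_sqrt
  rw [one_div, mul_inv, mul_assoc, ← div_eq_inv_mul, le_div_iff₀ hv0, mul_comm]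
  exact h5

/-- the space -/
noncomputable def Hs (ρ : (Fin n → ℂ) → ℝ) :
    Submodule ℂ (Lp ℂ 2 (volume : Measure (Fin n → ℂ))) where
  carrier := {u | ∃ f, Rep ρ u f}
  zero_mem' := by
    refine ⟨0, differentiable_const 0, ?_⟩
    filter_upwards [Lp.coeFn_zero ℂ 2 (volume : Measure (Fin n → ℂ))] with z h
    rw [h]
    simp
  add_mem' := by
    rintro u v ⟨f, hf⟩ ⟨g, hg⟩
    exact ⟨f + g, rep_add hf hg⟩
  smul_mem' := by
    rintro c u ⟨f, hf⟩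
    exact ⟨c • f, rep_smul c hf⟩

lemma mem_Hs {u : Lp ℂ 2 (volume : Measure (Fin n → ℂ))} : u ∈ Hs ρ ↔ ∃ f, Rep ρ u f := Iff.rfl

/-- derivatives are bounded -/
lemma evd (hρc : Continuous ρ) (hρ : ∀ z, 0 < ρ z) (R : ℝ) :
    ∃ C : ℝ, 0 ≤ C ∧ ∀ (u : Lp ℂ 2 (volume : Measure (Fin n → ℂ))) (f : (Fin n → ℂ) → ℂ),
      Rep ρ u f → ∀ z ∈ closedBall (0 : Fin n → ℂ) R, ‖fderiv ℂ f z‖ ≤ C * ‖u‖ := by
  obtain ⟨C, hC, h⟩ := ev hρc hρ (R + 1)
  refine ⟨C, hC, fun u f hf z hz => ?_⟩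
  refine norm_fderiv_le hf.1 z fun y hy => h u f hf y ?_
  rw [mem_closedBall] at hz hy ⊢
  have := dist_triangle y z 0
  linarith

lemma isClosed_Hs (hρc : Continuous ρ) (hρ : ∀ z, 0 < ρ z) :
    IsClosed (Hs ρ : Set (Lp ℂ 2 (volume : Measure (Fin n → ℂ)))) := by
  refine IsSeqClosed.isClosed ?_
  intro U u hU hlim
  choose F hF using hU
  have hcauchy : CauchySeq U := hlim.cauchySeq
  -- uniform Cauchy on balls
  have hunif : ∀ R : ℝ, UniformCauchySeqOn F atTop (closedBall (0 : Fin n → ℂ) R) := by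
    intro R
    obtain ⟨C, hC, h⟩ := ev hρc hρ R
    rw [Metric.uniformCauchySeqOn_iff]
    intro ε hε
    obtain ⟨N, hN⟩ := Metric.cauchySeq_iff.1 hcauchy (ε / (C + 1)) (by positivity)
    refine ⟨N, fun k hk l hl z hz => ?_⟩
    have h1 := h _ _ (rep_sub (hF k) (hF l)) z hz
    have h2 := hN k hk l hl
    rw [dist_eq_norm] at h2 ⊢
    have h3 : C * ‖U k - U l‖ ≤ C * (ε / (C + 1)) := mul_le_mul_of_nonneg_left h2.le hC
    have h4 : C * (ε / (C + 1)) < ε := by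
      rw [mul_div_assoc', div_lt_iff₀ (by positivity)]
      nlinarith
    exact (h1.trans h3).trans_lt h4
  have hunif' : ∀ R : ℝ, UniformCauchySeqOn (fun k => fderiv ℂ (F k)) atTop
      (closedBall (0 : Fin n → ℂ) R) := by
    intro R
    obtain ⟨C, hC, h⟩ := evd hρc hρ R
    rw [Metric.uniformCauchySeqOn_iff]
    intro ε hε
    obtain ⟨N, hN⟩ := Metric.cauchySeq_iff.1 hcauchy (ε / (C + 1)) (by positivity)
    refine ⟨N, fun k hk l hl z hz => ?_⟩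
    have h1 := h _ _ (rep_sub (hF k) (hF l)) z hz
    have h2 := hN k hk l hl
    rw [fderiv_sub ((hF k).1 z) ((hF l).1 z)] at h1
    rw [dist_eq_norm] at h2 ⊢
    have h3 : C * ‖U k - U l‖ ≤ C * (ε / (C + 1)) := mul_le_mul_of_nonneg_left h2.le hC
    have h4 : C * (ε / (C + 1)) < ε := by
      rw [mul_div_assoc', div_lt_iff₀ (by positivity)]
      nlinarith
    exact (h1.trans h3).trans_lt h4
  have hpt : ∀ z, ∃ w, Tendsto (fun k => F k z) atTop (𝓝 w) := by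
    intro z
    have h1 := (hunif ‖z‖).cauchySeq (show z ∈ closedBall (0 : Fin n → ℂ) ‖z‖ by simp)
    exact cauchySeq_tendsto_of_complete h1
  choose f hf using hpt
  have hpt' : ∀ z, ∃ w, Tendsto (fun k => fderiv ℂ (F k) z) atTop (𝓝 w) := by
    intro z
    have h1 := (hunif' ‖z‖).cauchySeq (show z ∈ closedBall (0 : Fin n → ℂ) ‖z‖ by simp)
    exact cauchySeq_tendsto_of_complete h1
  choose f' hf' using hpt'
  have hdiff : Differentiable ℂ f := by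
    intro z
    have h1 : TendstoUniformlyOn (fun k => fderiv ℂ (F k)) f' atTop
        (ball (0 : Fin n → ℂ) (‖z‖ + 1)) :=
      ((hunif' (‖z‖ + 1)).mono ball_subset_closedBall).tendstoUniformlyOn_of_tendsto
        fun y _ => hf' y
    have h2 := hasFDerivAt_of_tendstoUniformlyOn (x := z) isOpen_ball h1
      (fun k y _ => ((hF k).1 y).hasFDerivAt) (fun y _ => hf y) (by simp)
    exact h2.differentiableAt
  refine ⟨f, hdiff, ?_⟩
  have h1 : TendstoInMeasure volume (fun k => (U k : (Fin n → ℂ) → ℂ)) atTop u :=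
    tendstoInMeasure_of_tendsto_Lp hlim
  obtain ⟨ns, hns, h2⟩ := h1.exists_seq_tendsto_ae
  have h3 : ∀ᵐ z ∂(volume : Measure (Fin n → ℂ)), ∀ k, U k z = F k z * (√(ρ z) : ℂ) :=
    ae_all_iff.2 fun k => (hF k).2
  filter_upwards [h2, h3] with z h4 h5
  simp only [h5] at h4
  have h6 : Tendsto (fun k => F (ns k) z * (√(ρ z) : ℂ)) atTop (𝓝 (f z * (√(ρ z) : ℂ))) :=
    ((hf z).comp hns.tendsto_atTop).mul_const _
  exact tendsto_nhds_unique h4 h6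

end Pool.Agent.Helper1.FN
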